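import Pool.Agent.H47Z.RhoLim

/-!
Frequency of 1s under a forbidden binary word: the frequency is not monotone in the number of 1s
of the forbidden word. Letters: `false` is 0 and `true` is 1.
-/

set_option autoImplicit false

open Filter Topology

namespace Pool.Agent.Results.MP_1f54e8_co.RhoNotMonotone

/-- the words of length `n` (as functions on `Fin n`) that do not contain `w` as a factor -/
def Omega (w : List Bool) (n : ℕ) : Finset (Fin n → Bool) :=
  Finset.univ.filter (fun f => ¬ w <:+: List.ofFn f)

/-- the total number of 1s in the `w`-avoiding words of length `n`, divided by `n` times their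
number -/
noncomputable def freq (w : List Bool) (n : ℕ) : ℝ :=
  (∑ f ∈ Omega w n, ((List.ofFn f).count true : ℝ)) / (n * (Omega w n).card)

/-- the exceptional words `1^(k-1) 0`, `1 0^(k-1)`, `0^(k-1) 1`, `0 1^(k-1)` with `k ≥ 2` -/
def InR (w : List Bool) : Prop :=
  ∃ k : ℕ, 2 ≤ k ∧ (w = List.replicate (k - 1) true ++ [false] ∨
    w = true :: List.replicate (k - 1) false ∨ w = List.replicate (k - 1) false ++ [true] ∨
    w = false :: List.replicate (k - 1) true)

/-- the word `(001)^14 00` -/
def v : List Bool := (List.replicate 14 [false, false, true]).flatten ++ [false, false]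

/-- the word `0^29 1^15` -/
def w : List Bool := List.replicate 29 false ++ List.replicate 15 true

lemma freq_eq (u : List Bool) : freq u = Pool.Agent.H47Z.Rho.fr u := by
  funext n
  have h : Pool.Agent.H47Z.Rho.Om u n = (Omega u n).image List.ofFn := by
    unfold Pool.Agent.H47Z.Rho.Om Pool.Agent.H47Z.Rho.words Omega
    rw [Finset.filter_image]
  have hinj : Set.InjOn (List.ofFn : (Fin n → Bool) → List Bool) (Omega u n) :=
    List.ofFn_injective.injOn
  unfold freq Pool.Agent.H47Z.Rho.fr
  rw [h, Finset.sum_image hinj, Finset.card_image_of_injOn hinj]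

lemma not_InR {u : List Bool} (hl : u.length = 44) (h1 : u.count true ≠ 1)
    (h2 : u.count true ≠ 43) : ¬ InR u := by
  rintro ⟨k, hk, h | h | h | h⟩ <;> subst h <;> simp [List.count_replicate] at hl h1 h2 <;> omega

/-- The words `v = (001)^14 00` and `w = 0^29 1^15` have the same length, are not exceptional, `v`
has fewer 1s than `w`, both limit frequencies exist, and `ρ^v < ρ^w`. -/
theorem result : v.length = 44 ∧ w.length = 44 ∧ ¬ InR v ∧ ¬ InR w ∧
    v.count true = 14 ∧ w.count true = 15 ∧
    ∃ ρv ρw : ℝ, Tendsto (freq v) atTop (𝓝 ρv) ∧ Tendsto (freq w) atTop (𝓝 ρw) ∧ ρv < ρw := by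
  refine ⟨by decide, by decide, not_InR (by decide) (by decide) (by decide),
    not_InR (by decide) (by decide) (by decide), by decide, by decide, ?_⟩
  obtain ⟨a, ha, ha'⟩ := Pool.Agent.H47Z.Rho.limit_vv
  obtain ⟨b, hb, hb'⟩ := Pool.Agent.H47Z.Rho.limit_ww
  rw [freq_eq, freq_eq]
  exact ⟨a, b, ha, hb, ha'.trans hb'⟩

end Pool.Agent.Results.MP_1f54e8_co.RhoNotMonotone
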